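import Pool.Agent.BEF.Stmts

/-!
# Squad BEF, row GDV: derivatives in the graded spaces
-/

namespace Pool.Agent.BEF.H52

open Set Filter Topology MeasureTheory
open Pool.Agent.BE01

noncomputable section

/-- The derivative of the evaluation of a polynomial. -/
lemma hasFDerivAt_eval {κ : Type} [Fintype κ] (f : MvPolynomial κ ℝ) (z : κ → ℝ) :
    HasFDerivAt (fun z : κ → ℝ => MvPolynomial.eval z f)
      (∑ i, MvPolynomial.eval z (MvPolynomial.pderiv i f) •
        (ContinuousLinearMap.proj i : (κ → ℝ) →L[ℝ] ℝ)) z := by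
  classical
  induction f using MvPolynomial.induction_on with
  | C a =>
    have h := hasFDerivAt_const (𝕜 := ℝ) (MvPolynomial.eval z (MvPolynomial.C a)) z
    have e1 : (fun z : κ → ℝ => MvPolynomial.eval z (MvPolynomial.C a)) =
        fun _ => MvPolynomial.eval z (MvPolynomial.C a) := by
      funext z'
      simp
    have e2 : (∑ i, MvPolynomial.eval z (MvPolynomial.pderiv i (MvPolynomial.C a)) •
        (ContinuousLinearMap.proj i : (κ → ℝ) →L[ℝ] ℝ)) = 0 := by
      simp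
    rw [e1, e2]
    exact h
  | add p q hp hq =>
    have h := hp.add hq
    have e1 : (fun z : κ → ℝ => MvPolynomial.eval z (p + q)) =
        ((fun z : κ → ℝ => MvPolynomial.eval z p) + fun z : κ → ℝ => MvPolynomial.eval z q) := by
      funext z'
      simp
    rw [e1]
    refine h.congr_fderiv ?_
    rw [← Finset.sum_add_distrib]
    refine Finset.sum_congr rfl fun i _ => ?_
    rw [map_add, map_add, add_smul]
  | mul_X p n hp =>
    have h0 : HasFDerivAt (fun z : κ → ℝ => z n)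
        (ContinuousLinearMap.proj n : (κ → ℝ) →L[ℝ] ℝ) z :=
      (ContinuousLinearMap.proj n : (κ → ℝ) →L[ℝ] ℝ).hasFDerivAt
    have h := hp.mul h0
    have e1 : (fun z : κ → ℝ => MvPolynomial.eval z (p * MvPolynomial.X n)) =
        ((fun z : κ → ℝ => MvPolynomial.eval z p) * fun z : κ → ℝ => z n) := by
      funext z'
      simp
    rw [e1]
    refine h.congr_fderiv ?_
    ext v
    simp only [ContinuousLinearMap.add_apply, ContinuousLinearMap.smul_apply,
      ContinuousLinearMap.sum_apply, ContinuousLinearMap.proj_apply, smul_eq_mul,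
      Derivation.leibniz, map_add, map_mul, MvPolynomial.eval_X, MvPolynomial.pderiv_X, add_mul,
      Finset.sum_add_distrib, Finset.mul_sum]
    congr 1
    · rw [Finset.sum_eq_single n]
      · simp
      · intro i _ hi
        simp [Pi.single_apply, hi.symm]
      · intro h
        exact absurd (Finset.mem_univ n) h
    · refine Finset.sum_congr rfl fun i _ => ?_
      ring

section sm

variable (κ : Type) [Fintype κ] (M : Type) [NormedAddCommGroup M] [NormedSpace ℝ M]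

/-- The smooth functions. -/
def SM : Submodule ℝ (ℝ → (κ → ℝ) → M) where
  carrier := {P | (∀ ψ z, DifferentiableAt ℝ (fun s => P s z) ψ) ∧
    (∀ ψ z, DifferentiableAt ℝ (P ψ) z) ∧ Continuous (fun s : ℝ × (κ → ℝ) => P s.1 s.2)}
  zero_mem' := ⟨fun _ _ => differentiableAt_const _, fun _ _ => differentiableAt_const _,
    continuous_const⟩
  add_mem' := fun hx hy => ⟨fun ψ z => (hx.1 ψ z).add (hy.1 ψ z),
    fun ψ z => (hx.2.1 ψ z).add (hy.2.1 ψ z), hx.2.2.add hy.2.2⟩
  smul_mem' := fun c _ hx => ⟨fun ψ z => (hx.1 ψ z).const_smul c,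
    fun ψ z => (hx.2.1 ψ z).const_smul c, hx.2.2.const_smul c⟩

variable {κ M}

lemma dp_zero : dp (0 : ℝ → (κ → ℝ) → M) = 0 := by
  funext ψ z
  exact deriv_const _ _

lemma dp_add {P Q : ℝ → (κ → ℝ) → M} (hP : P ∈ SM κ M) (hQ : Q ∈ SM κ M) :
    dp (P + Q) = dp P + dp Q := by
  funext ψ z
  exact ((hP.1 ψ z).hasDerivAt.add (hQ.1 ψ z).hasDerivAt).deriv

lemma dp_smul (c : ℝ) {P : ℝ → (κ → ℝ) → M} (hP : P ∈ SM κ M) :
    dp (c • P) = c • dp P := by
  funext ψ z
  exact ((hP.1 ψ z).hasDerivAt.const_smul c).deriv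

lemma dv_zero (F : κ → MvPolynomial κ ℝ) : dv F (0 : ℝ → (κ → ℝ) → M) = 0 := by
  funext ψ z
  have h : HasFDerivAt ((0 : ℝ → (κ → ℝ) → M) ψ) (0 : (κ → ℝ) →L[ℝ] M) z :=
    hasFDerivAt_const (0 : M) z
  simp only [dv]
  rw [h.fderiv]
  rfl

lemma dv_add (F : κ → MvPolynomial κ ℝ) {P Q : ℝ → (κ → ℝ) → M} (hP : P ∈ SM κ M)
    (hQ : Q ∈ SM κ M) : dv F (P + Q) = dv F P + dv F Q := by
  funext ψ z
  have h : HasFDerivAt ((P + Q) ψ) (fderiv ℝ (P ψ) z + fderiv ℝ (Q ψ) z) z :=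
    (hP.2.1 ψ z).hasFDerivAt.add (hQ.2.1 ψ z).hasFDerivAt
  simp only [dv, Pi.add_apply]
  have h2 : fderiv ℝ (P ψ + Q ψ) z = fderiv ℝ (P ψ) z + fderiv ℝ (Q ψ) z := h.fderiv
  rw [h2]
  rfl

lemma dv_smul (F : κ → MvPolynomial κ ℝ) (c : ℝ) {P : ℝ → (κ → ℝ) → M} (hP : P ∈ SM κ M) :
    dv F (c • P) = c • dv F P := by
  funext ψ z
  have h : HasFDerivAt ((c • P) ψ) (c • fderiv ℝ (P ψ) z) z :=
    (hP.2.1 ψ z).hasFDerivAt.const_smul c
  simp only [dv, Pi.smul_apply]
  have h2 : fderiv ℝ (c • P ψ) z = c • fderiv ℝ (P ψ) z := h.fderiv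
  rw [h2]
  rfl

/-- The generators are smooth. -/
lemma gen_smooth (f : MvPolynomial κ ℝ) (m : M) (c c' : ℝ → ℝ)
    (hc : ∀ ψ, HasDerivAt c (c' ψ) ψ) :
    (fun ψ z => (MvPolynomial.eval z f * c ψ) • m : ℝ → (κ → ℝ) → M) ∈ SM κ M := by
  refine ⟨fun ψ z => ?_, fun ψ z => ?_, ?_⟩
  · exact (((hc ψ).const_mul _).smul_const m).differentiableAt
  · have h := ((hasFDerivAt_eval f z).mul_const (c ψ)).smul_const m
    exact h.differentiableAt
  · have hcc : Continuous c := continuous_iff_continuousAt.2 fun ψ => (hc ψ).continuousAt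
    have h1 : Continuous fun s : ℝ × (κ → ℝ) => MvPolynomial.eval s.2 f :=
      (MvPolynomial.continuous_eval f).comp continuous_snd
    exact (h1.mul (hcc.comp continuous_fst)).smul continuous_const

lemma gen_dp (f : MvPolynomial κ ℝ) (m : M) (c c' : ℝ → ℝ)
    (hc : ∀ ψ, HasDerivAt c (c' ψ) ψ) :
    dp (fun ψ z => (MvPolynomial.eval z f * c ψ) • m : ℝ → (κ → ℝ) → M) =
      fun ψ z => (MvPolynomial.eval z f * c' ψ) • m := by
  funext ψ z
  exact (((hc ψ).const_mul _).smul_const m).deriv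

lemma gen_dv (F : κ → MvPolynomial κ ℝ) (f : MvPolynomial κ ℝ) (m : M) (c : ℝ → ℝ) :
    dv F (fun ψ z => (MvPolynomial.eval z f * c ψ) • m : ℝ → (κ → ℝ) → M) =
      ∑ i, fun ψ z => (MvPolynomial.eval z (F i * MvPolynomial.pderiv i f) * c ψ) • m := by
  funext ψ z
  have h := ((hasFDerivAt_eval f z).mul_const (c ψ)).smul_const m
  simp only [dv]
  rw [h.fderiv]
  simp only [ContinuousLinearMap.smulRight_apply, ContinuousLinearMap.smul_apply,
    ContinuousLinearMap.sum_apply, ContinuousLinearMap.proj_apply, smul_eq_mul, vf,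
    Finset.sum_apply]
  rw [Finset.mul_sum, Finset.sum_smul]
  refine Finset.sum_congr rfl fun i _ => ?_
  congr 1
  rw [map_mul]
  ring

lemma hasDerivAt_cosj (j : ℕ) (ψ : ℝ) :
    HasDerivAt (fun ψ : ℝ => Real.cos (j * ψ)) (-(j : ℝ) * Real.sin (j * ψ)) ψ := by
  have h := (Real.hasDerivAt_cos ((j : ℝ) * ψ)).comp ψ ((hasDerivAt_id ψ).const_mul (j : ℝ))
  refine h.congr_deriv ?_
  ring

lemma hasDerivAt_sinj (j : ℕ) (ψ : ℝ) :
    HasDerivAt (fun ψ : ℝ => Real.sin (j * ψ)) ((j : ℝ) * Real.cos (j * ψ)) ψ := by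
  have h := (Real.hasDerivAt_sin ((j : ℝ) * ψ)).comp ψ ((hasDerivAt_id ψ).const_mul (j : ℝ))
  refine h.congr_deriv ?_
  ring

lemma HG_le_SM (d : ℕ) : HG κ M d ≤ SM κ M := by
  refine Submodule.span_le.2 ?_
  rintro P ⟨f, j, i, m, _, _, h | h⟩
  · rw [h]
    exact gen_smooth f m _ _ (hasDerivAt_cosj j)
  · rw [h]
    exact gen_smooth f m _ _ (hasDerivAt_sinj j)

lemma GE_le_SM (d : ℕ) : GE κ M d ≤ SM κ M := iSup_le fun k => HG_le_SM (d + 2 * k)

lemma dp_HG (d : ℕ) {P : ℝ → (κ → ℝ) → M} (hP : P ∈ HG κ M d) : dp P ∈ HG κ M d := by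
  refine Submodule.span_induction (p := fun P _ => dp P ∈ HG κ M d) ?_ ?_ ?_ ?_ hP
  · rintro P ⟨f, j, i, m, hf, hj, h | h⟩
    · rw [h, gen_dp f m _ _ (hasDerivAt_cosj j)]
      have e : (fun ψ z => (MvPolynomial.eval z f * (-(j : ℝ) * Real.sin (j * ψ))) • m :
          ℝ → (κ → ℝ) → M) =
          (-(j : ℝ)) • fun ψ z => (MvPolynomial.eval z f * Real.sin (j * ψ)) • m := by
        funext ψ z
        simp only [Pi.smul_apply, smul_smul]
        congr 1
        ring
      rw [e]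
      exact Submodule.smul_mem _ _ (Submodule.subset_span ⟨f, j, i, m, hf, hj, Or.inr rfl⟩)
    · rw [h, gen_dp f m _ _ (hasDerivAt_sinj j)]
      have e : (fun ψ z => (MvPolynomial.eval z f * ((j : ℝ) * Real.cos (j * ψ))) • m :
          ℝ → (κ → ℝ) → M) =
          ((j : ℝ)) • fun ψ z => (MvPolynomial.eval z f * Real.cos (j * ψ)) • m := by
        funext ψ z
        simp only [Pi.smul_apply, smul_smul]
        congr 1
        ring
      rw [e]
      exact Submodule.smul_mem _ _ (Submodule.subset_span ⟨f, j, i, m, hf, hj, Or.inl rfl⟩)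
  · rw [dp_zero]
    exact Submodule.zero_mem _
  · intro x y hx hy h1 h2
    rw [dp_add (HG_le_SM d hx) (HG_le_SM d hy)]
    exact Submodule.add_mem _ h1 h2
  · intro a x hx h1
    rw [dp_smul a (HG_le_SM d hx)]
    exact Submodule.smul_mem _ _ h1

lemma HG_le_GE (d k : ℕ) : HG κ M (d + 2 * k) ≤ GE κ M d :=
  le_iSup (fun k : ℕ => HG κ M (d + 2 * k)) k

lemma dp_GE (d : ℕ) {P : ℝ → (κ → ℝ) → M} (hP : P ∈ GE κ M d) : dp P ∈ GE κ M d := by
  refine Submodule.iSup_induction' (fun k : ℕ => HG κ M (d + 2 * k))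
    (motive := fun P _ => dp P ∈ GE κ M d) ?_ ?_ ?_ hP
  · intro k P hP
    exact HG_le_GE d k (dp_HG _ hP)
  · rw [dp_zero]
    exact Submodule.zero_mem _
  · intro x y hx hy h1 h2
    rw [dp_add (GE_le_SM d hx) (GE_le_SM d hy)]
    exact Submodule.add_mem _ h1 h2

/-- A polynomial times a function of the angle times a vector, as a linear map of the
polynomial. -/
def lin (c : ℝ → ℝ) (m : M) (g : MvPolynomial κ ℝ) :
    MvPolynomial κ ℝ →ₗ[ℝ] (ℝ → (κ → ℝ) → M) where
  toFun G := fun ψ z => (MvPolynomial.eval z (G * g) * c ψ) • m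
  map_add' := fun G G' => by
    funext ψ z
    simp only [Pi.add_apply]
    rw [← add_smul]
    congr 1
    rw [add_mul, map_add, add_mul]
  map_smul' := fun a G => by
    funext ψ z
    simp only [Pi.smul_apply, RingHom.id_apply, smul_smul]
    congr 1
    rw [smul_mul_assoc, MvPolynomial.smul_eval, mul_assoc]

lemma pderiv_zero_of_hom {f : MvPolynomial κ ℝ} (hf : f.IsHomogeneous 0) (i : κ) :
    MvPolynomial.pderiv i f = 0 := by
  have h1 : f.totalDegree = 0 := Nat.le_zero.1 hf.totalDegree_le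
  rw [MvPolynomial.totalDegree_eq_zero_iff_eq_C.1 h1]
  exact MvPolynomial.pderiv_C

lemma lin_mem (D e : ℕ) (c : ℝ → ℝ) (m : M) (f : MvPolynomial κ ℝ) (hf : f.IsHomogeneous D)
    (hc : ∀ (k : ℕ) (g : MvPolynomial κ ℝ), g.IsHomogeneous (D + 2 * e + 2 * k) →
      (fun ψ z => (MvPolynomial.eval z g * c ψ) • m : ℝ → (κ → ℝ) → M) ∈
        HG κ M (D + 2 * e + 2 * k)) (i : κ)
    {G : MvPolynomial κ ℝ} (hG : G ∈ GP κ (2 * e + 1)) :
    (fun ψ z => (MvPolynomial.eval z (G * MvPolynomial.pderiv i f) * c ψ) • m :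
      ℝ → (κ → ℝ) → M) ∈ GE κ M (D + 2 * e) := by
  have h : GP κ (2 * e + 1) ≤
      (GE κ M (D + 2 * e)).comap (lin c m (MvPolynomial.pderiv i f)) := by
    refine iSup_le fun k => ?_
    intro G hG
    rw [Submodule.mem_comap]
    rcases Nat.eq_zero_or_pos D with hD | hD
    · subst hD
      have e1 : lin c m (MvPolynomial.pderiv i f) G = 0 := by
        funext ψ z
        simp only [lin, LinearMap.coe_mk, AddHom.coe_mk, pderiv_zero_of_hom hf i]
        simp
      rw [e1]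
      exact Submodule.zero_mem _
    · refine HG_le_GE (D + 2 * e) k ?_
      have h1 : (G * MvPolynomial.pderiv i f).IsHomogeneous (D + 2 * e + 2 * k) := by
        have h2 := (show G.IsHomogeneous (2 * e + 1 + 2 * k) from hG).mul (hf.pderiv (i := i))
        have h3 : 2 * e + 1 + 2 * k + (D - 1) = D + 2 * e + 2 * k := by omega
        rw [h3] at h2
        exact h2
      exact hc k _ h1
  exact h hG

lemma dv_HG (D e : ℕ) (F : κ → MvPolynomial κ ℝ) (hF : ∀ i, F i ∈ GP κ (2 * e + 1))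
    {P : ℝ → (κ → ℝ) → M} (hP : P ∈ HG κ M D) : dv F P ∈ GE κ M (D + 2 * e) := by
  refine Submodule.span_induction (p := fun P _ => dv F P ∈ GE κ M (D + 2 * e)) ?_ ?_ ?_ ?_ hP
  · rintro P ⟨f, j, i, m, hf, hj, h | h⟩
    · rw [h, gen_dv F f m]
      refine Submodule.sum_mem _ fun i' _ => ?_
      refine lin_mem D e _ m f hf ?_ i' (hF i')
      intro k g hg
      exact Submodule.subset_span ⟨g, j, i + e + k, m, hg, by omega, Or.inl rfl⟩
    · rw [h, gen_dv F f m]
      refine Submodule.sum_mem _ fun i' _ => ?_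
      refine lin_mem D e _ m f hf ?_ i' (hF i')
      intro k g hg
      exact Submodule.subset_span ⟨g, j, i + e + k, m, hg, by omega, Or.inr rfl⟩
  · rw [dv_zero]
    exact Submodule.zero_mem _
  · intro x y hx hy h1 h2
    rw [dv_add F (HG_le_SM D hx) (HG_le_SM D hy)]
    exact Submodule.add_mem _ h1 h2
  · intro a x hx h1
    rw [dv_smul F a (HG_le_SM D hx)]
    exact Submodule.smul_mem _ _ h1

lemma GE_le_GE (d k : ℕ) : GE κ M (d + 2 * k) ≤ GE κ M d := by
  refine iSup_le fun k' => ?_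
  have h : d + 2 * k + 2 * k' = d + 2 * (k + k') := by ring
  rw [h]
  exact HG_le_GE d (k + k')

lemma dv_GE (d e : ℕ) (F : κ → MvPolynomial κ ℝ) (hF : ∀ i, F i ∈ GP κ (2 * e + 1))
    {P : ℝ → (κ → ℝ) → M} (hP : P ∈ GE κ M d) : dv F P ∈ GE κ M (d + 2 * e) := by
  refine Submodule.iSup_induction' (fun k : ℕ => HG κ M (d + 2 * k))
    (motive := fun P _ => dv F P ∈ GE κ M (d + 2 * e)) ?_ ?_ ?_ hP
  · intro k P hP
    have h := dv_HG (d + 2 * k) e F hF hP
    have e1 : d + 2 * k + 2 * e = d + 2 * e + 2 * k := by ring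
    rw [e1] at h
    exact GE_le_GE _ _ h
  · rw [dv_zero]
    exact Submodule.zero_mem _
  · intro x y hx hy h1 h2
    rw [dv_add F (GE_le_SM d hx) (GE_le_SM d hy)]
    exact Submodule.add_mem _ h1 h2

end sm

/-- GDV: derivatives in the graded spaces. -/
theorem gdv : GdvStmt := by
  intro κ _ M _ _ d P
  refine ⟨fun hP => dp_HG d hP, fun hP => ⟨dp_GE d hP, fun e F hF => dv_GE d e F hF hP,
    fun ψ z => ((GE_le_SM d hP).1 ψ z).hasDerivAt, (GE_le_SM d hP).2.1, (GE_le_SM d hP).2.2⟩⟩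

end

end Pool.Agent.BEF.H52
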